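import Pool.Agent.W798.KF.Stm

/-! # KF: combination -/

set_option autoImplicit false

open Finset
open scoped Pointwise

namespace Pool.Agent.W32.KF

open Pool.Agent.W798.SP Pool.Agent.W798.KF

theorem arith (N P D h g L n T E3 Q V : ℕ) (hN : 0 < N)
    (e1 : N ^ 4 ≤ 4 * P * g * (n * T ^ 2)) (e2 : h * E3 ≤ L * (D * N) ^ 2) (e3 : n * T ^ 3 ≤ E3)
    (e4 : (N * (n * T)) ^ 2 ≤ Q * E3) (e5 : T * Q ≤ V) (e6 : h * V ^ 2 ≤ L * N * P ^ 3 * D ^ 2) :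
    N ^ 19 * h ^ 5 ≤ (4 * g) ^ 6 * L ^ 5 * P ^ 9 * D ^ 10 := by
  have s1 : T * (N * (n * T)) ^ 2 ≤ V * E3 := by
    calc T * (N * (n * T)) ^ 2 ≤ T * (Q * E3) := Nat.mul_le_mul_left _ e4
      _ = (T * Q) * E3 := by ring
      _ ≤ V * E3 := Nat.mul_le_mul_right _ e5
  have s2 : h ^ 3 * (T * (N * (n * T)) ^ 2) ^ 2 ≤
      (L * N * P ^ 3 * D ^ 2) * (L * (D * N) ^ 2) ^ 2 := by
    calc h ^ 3 * (T * (N * (n * T)) ^ 2) ^ 2 ≤ h ^ 3 * (V * E3) ^ 2 :=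
          Nat.mul_le_mul_left _ (Nat.pow_le_pow_left s1 2)
      _ = (h * V ^ 2) * (h * E3) ^ 2 := by ring
      _ ≤ (L * N * P ^ 3 * D ^ 2) * (L * (D * N) ^ 2) ^ 2 :=
          Nat.mul_le_mul e6 (Nat.pow_le_pow_left e2 2)
  have s3 : (h * (n * T ^ 3)) ^ 2 ≤ (L * (D * N) ^ 2) ^ 2 :=
    Nat.pow_le_pow_left ((Nat.mul_le_mul_left _ e3).trans e2) 2
  have s4 := Nat.mul_le_mul s2 s3
  have s5 : N ^ 4 * (h ^ 5 * (n * T ^ 2) ^ 6) ≤ N ^ 4 * (L ^ 5 * P ^ 3 * D ^ 10 * N ^ 5) := by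
    calc N ^ 4 * (h ^ 5 * (n * T ^ 2) ^ 6) =
          h ^ 3 * (T * (N * (n * T)) ^ 2) ^ 2 * (h * (n * T ^ 3)) ^ 2 := by ring
      _ ≤ (L * N * P ^ 3 * D ^ 2) * (L * (D * N) ^ 2) ^ 2 * (L * (D * N) ^ 2) ^ 2 := s4
      _ = N ^ 4 * (L ^ 5 * P ^ 3 * D ^ 10 * N ^ 5) := by ring
  have s6 := Nat.le_of_mul_le_mul_left s5 (by positivity)
  have s7 : N ^ 5 * (N ^ 19 * h ^ 5) ≤ N ^ 5 * ((4 * g) ^ 6 * L ^ 5 * P ^ 9 * D ^ 10) := by
    calc N ^ 5 * (N ^ 19 * h ^ 5) = (N ^ 4) ^ 6 * h ^ 5 := by ring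
      _ ≤ (4 * P * g * (n * T ^ 2)) ^ 6 * h ^ 5 :=
          Nat.mul_le_mul_right _ (Nat.pow_le_pow_left e1 6)
      _ = ((4 * g) ^ 6 * P ^ 6) * (h ^ 5 * (n * T ^ 2) ^ 6) := by ring
      _ ≤ ((4 * g) ^ 6 * P ^ 6) * (L ^ 5 * P ^ 3 * D ^ 10 * N ^ 5) := Nat.mul_le_mul_left _ s6
      _ = N ^ 5 * ((4 * g) ^ 6 * L ^ 5 * P ^ 9 * D ^ 10) := by ring
  exact Nat.le_of_mul_le_mul_left s7 (by positivity)

theorem fib_eq (A : Finset ℝ) (l : ℝ) : fib A l = A.filter (fun x => l * x ∈ A) := by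
  unfold fib
  exact Finset.filter_congr_decidable _ _ _

theorem tSS (hTM : S_TM) (hEP : S_EP) (hC3 : S_C3) (hDY : S_DY) : S_SS := by
  intro A H hA hH hpos
  obtain ⟨T, S, hT1, hTN, hS, hE1, hE2⟩ := hDY A hA hpos
  have hN : 0 < A.card := hA.card_pos
  have hTM' := hTM A H A (A / A) hH (by
    intro z hz
    obtain ⟨a, ha, b, hb, rfl⟩ := Finset.mem_div.1 hz
    exact div_ne_zero (hpos a ha).ne' (hpos b hb).ne') Finset.card_div_le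
  simp only [← fib_eq] at hTM'
  have hSp : ∀ l ∈ S, 0 < l := fun l hl => (hS l hl).1
  have hEP' := hEP A H S hH hpos hSp
  have hC3' := hC3 A S hpos hSp
  have hsub : S ⊆ A / A := by
    intro l hl
    have h1 : 0 < (fib A l).card := lt_of_lt_of_le hT1 (hS l hl).2.1
    obtain ⟨x, hx⟩ := Finset.card_pos.1 h1
    rw [fib_eq, Finset.mem_filter] at hx
    refine Finset.mem_div.2 ⟨l * x, hx.2, x, hx.1, ?_⟩
    exact mul_div_cancel_right₀ l (hpos x hx.1).ne'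
  refine arith A.card (A * A).card (A + H).card H.card (Nat.log 2 A.card + 1)
    (4097 * (Nat.log 2 (A + H).card + 1)) S.card T (∑ l ∈ A / A, (fib A l).card ^ 3)
    (∑ l ∈ S, (fib (A * A) l).card) (∑ l ∈ S, (fib A l).card * (fib (A * A) l).card) hN
    hE1 hTM' ?_ ?_ ?_ hEP'
  · calc S.card * T ^ 3 = ∑ _l ∈ S, T ^ 3 := by rw [Finset.sum_const, smul_eq_mul]
      _ ≤ ∑ l ∈ S, (fib A l).card ^ 3 :=
          Finset.sum_le_sum fun l hl => Nat.pow_le_pow_left (hS l hl).2.1 3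
      _ ≤ ∑ l ∈ A / A, (fib A l).card ^ 3 :=
          Finset.sum_le_sum_of_subset hsub
  · refine le_trans (Nat.pow_le_pow_left (Nat.mul_le_mul_left _ ?_) 2) hC3'
    calc S.card * T = ∑ _l ∈ S, T := by rw [Finset.sum_const, smul_eq_mul]
      _ ≤ ∑ l ∈ S, (fib A l).card := Finset.sum_le_sum fun l hl => (hS l hl).2.1
  · rw [Finset.mul_sum]
    exact Finset.sum_le_sum fun l hl => Nat.mul_le_mul_right _ (hS l hl).2.1

end Pool.Agent.W32.KF
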